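import Mathlib
import Pool.Agent.N432.KingBoot3

/-!
The smallest number of initially infected cells that fully infect the strong product of two paths
under three-neighbour bootstrap percolation.
-/

set_option autoImplicit false

namespace Pool.Agent.Results.MP_87c242_co.ExactMinimum

open Pool.Agent.N432.KingBoot

/-- The sizes of the sets that fully infect `P_m ⊠ P_n` under the `3`-neighbour process; `m_3(m,n)`
is the least element of this set. -/
def sizes (m n : ℕ) : Set ℕ :=
  {k | ∃ A : Set (Fin m × Fin n), FullyInfects (strongGrid m n) 3 A ∧ A.ncard = k}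

theorem sizes_swap (m n : ℕ) : sizes m n = sizes n m := by
  have h : ∀ m n : ℕ, sizes m n ⊆ sizes n m := by
    rintro m n k ⟨A, hA, hk⟩
    exact ⟨Prod.swap '' A, fully_swap A hA, by
      rw [Set.ncard_image_of_injective _ Prod.swap_injective, hk]⟩
  exact Set.Subset.antisymm (h m n) (h n m)

theorem least_of {m n k : ℕ} (hup : ∃ A : Set (Fin m × Fin n),
    FullyInfects (strongGrid m n) 3 A ∧ A.ncard ≤ k)
    (hlow : ∀ A : Set (Fin m × Fin n), FullyInfects (strongGrid m n) 3 A → k ≤ A.ncard) :
    IsLeast (sizes m n) k := by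
  refine ⟨?_, ?_⟩
  · obtain ⟨A, hA, hk⟩ := hup
    exact ⟨A, hA, le_antisymm hk (hlow A hA)⟩
  · rintro _ ⟨A, hA, rfl⟩
    exact hlow A hA

theorem case1 (m : ℕ) : IsLeast (sizes m 1) m := by
  have hc : (Set.univ : Set (Fin m × Fin 1)).ncard = m := by
    rw [Set.ncard_univ, Nat.card_eq_fintype_card, Fintype.card_prod, Fintype.card_fin,
      Fintype.card_fin, mul_one]
  refine least_of ⟨Set.univ, ?_, hc.le⟩ ?_
  · exact fully_of_all _ _ _ fun v => init_mem _ _ _ (Set.mem_univ v)
  · intro A hA
    rw [lower1 A hA, hc]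

theorem case2 (m : ℕ) (hm : 2 ≤ m) : IsLeast (sizes m 2) (m / 2 + 2) :=
  least_of (upper2 hm) fun A hA => lower2 hm A hA

theorem case3 (m n : ℕ) (hm : 3 ≤ m) (hn : 3 ≤ n) : IsLeast (sizes m n) 3 := by
  refine least_of (upper3 hm hn) ?_
  intro A hA
  by_cases h : A = Set.univ
  · rw [h, Set.ncard_univ, Nat.card_eq_fintype_card, Fintype.card_prod, Fintype.card_fin,
      Fintype.card_fin]
    nlinarith
  · exact lower_three A h hA

/-- For all `m, n ≥ 1` the smallest number `m_3(m,n)` of initially infected cells that fully infect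
`P_m ⊠ P_n` under `3`-neighbour bootstrap percolation is `max m n` if `min m n = 1`, is
`⌊max m n / 2⌋ + 2` if `min m n = 2`, and is `3` if `min m n ≥ 3`. -/
theorem result (m n : ℕ) (hm : 1 ≤ m) (hn : 1 ≤ n) :
    (min m n = 1 → IsLeast (sizes m n) (max m n)) ∧
    (min m n = 2 → IsLeast (sizes m n) (max m n / 2 + 2)) ∧
    (3 ≤ min m n → IsLeast (sizes m n) 3) := by
  refine ⟨?_, ?_, ?_⟩
  · intro h
    rcases le_total n m with hnm | hnm
    · rw [min_eq_right hnm] at h
      subst h
      rw [max_eq_left hnm]
      exact case1 m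
    · rw [min_eq_left hnm] at h
      subst h
      rw [max_eq_right hnm, sizes_swap]
      exact case1 n
  · intro h
    rcases le_total n m with hnm | hnm
    · rw [min_eq_right hnm] at h
      subst h
      rw [max_eq_left hnm]
      exact case2 m hnm
    · rw [min_eq_left hnm] at h
      subst h
      rw [max_eq_right hnm, sizes_swap]
      exact case2 n hnm
  · intro h
    rw [le_min_iff] at h
    exact case3 m n h.1 h.2

end Pool.Agent.Results.MP_87c242_co.ExactMinimum
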